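import Mathlib
import Pool.Agent.H68R2.BP.Props2

/-!
The support projection of a finite family of vectors in a von Neumann algebra.
-/

open scoped ComplexOrder InnerProductSpace ComplexConjugate Topology
open Finset Filter

noncomputable section

namespace H68R2.BP

open H759R2.Kad H744R2.KZ

namespace Gsuppaux

variable {H : Type} [NormedAddCommGroup H] [InnerProductSpace ℂ H] [CompleteSpace H]

/-- The generators. -/
def gen (M : VonNeumannAlgebra H) {k : ℕ} (Ω : HH (Fin k) H) : Set H :=
  {x | ∃ a ∈ M.commutant, ∃ i, a (Ω i) = x}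

/-- The cyclic subspace for the commutant. -/
def VV (M : VonNeumannAlgebra H) {k : ℕ} (Ω : HH (Fin k) H) : Submodule ℂ H :=
  (Submodule.span ℂ (gen M Ω)).topologicalClosure

theorem VV_closed (M : VonNeumannAlgebra H) {k : ℕ} (Ω : HH (Fin k) H) :
    IsClosed ((VV M Ω : Submodule ℂ H) : Set H) :=
  Submodule.isClosed_topologicalClosure _

instance (M : VonNeumannAlgebra H) {k : ℕ} (Ω : HH (Fin k) H) : CompleteSpace (VV M Ω) :=
  (VV_closed M Ω).completeSpace_coe

theorem gen_sub (M : VonNeumannAlgebra H) {k : ℕ} (Ω : HH (Fin k) H) :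
    gen M Ω ⊆ (VV M Ω : Submodule ℂ H) := fun _ hx =>
  Submodule.le_topologicalClosure _ (Submodule.subset_span hx)

/-- Two continuous linear maps agreeing on the generators agree on the subspace. -/
theorem eq_on (M : VonNeumannAlgebra H) {k : ℕ} (Ω : HH (Fin k) H) (f g : H →L[ℂ] H)
    (h : ∀ a ∈ M.commutant, ∀ i, f (a (Ω i)) = g (a (Ω i))) :
    ∀ x ∈ VV M Ω, f x = g x := by
  have h1 : Set.EqOn f g (gen M Ω) := by
    rintro x ⟨a, ha, i, rfl⟩
    exact h a ha i
  have h2 : Set.EqOn f g (closure ((Submodule.span ℂ (gen M Ω) : Submodule ℂ H) : Set H)) :=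
    ContinuousLinearMap.eqOn_closure_span h1
  intro x hx
  exact h2 hx

theorem inv (M : VonNeumannAlgebra H) {k : ℕ} (Ω : HH (Fin k) H) (b : H →L[ℂ] H)
    (hb : b ∈ M.commutant) : ∀ x ∈ VV M Ω, b x ∈ VV M Ω := by
  have h1 : ∀ x ∈ Submodule.span ℂ (gen M Ω), b x ∈ Submodule.span ℂ (gen M Ω) := by
    intro x hx
    induction hx using Submodule.span_induction with
    | mem x hx =>
      obtain ⟨a, ha, i, rfl⟩ := hx
      exact Submodule.subset_span ⟨b * a, mul_mem hb ha, i, rfl⟩
    | zero => simp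
    | add x y _ _ hx hy => rw [map_add]; exact add_mem hx hy
    | smul c x _ hx => rw [map_smul]; exact Submodule.smul_mem _ _ hx
  intro x hx
  have hx' : x ∈ closure ((Submodule.span ℂ (gen M Ω) : Submodule ℂ H) : Set H) := hx
  have : b x ∈ closure ((Submodule.span ℂ (gen M Ω) : Submodule ℂ H) : Set H) :=
    map_mem_closure b.continuous hx' (fun y hy => h1 y hy)
  exact this

theorem om_mem (M : VonNeumannAlgebra H) {k : ℕ} (Ω : HH (Fin k) H) (i : Fin k) :
    Ω i ∈ VV M Ω :=
  gen_sub M Ω ⟨1, one_mem _, i, rfl⟩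

end Gsuppaux

open Gsuppaux in
theorem prove_G_supp : G_supp := by
  intro H _ _ _ M z hz k Ω hΩ
  set p : H →L[ℂ] H := (VV M Ω).starProjection with hp
  have hsp : IsStarProjection p := isStarProjection_starProjection
  have hpV : ∀ x ∈ VV M Ω, p x = x := fun x hx =>
    Submodule.starProjection_eq_self_iff.2 hx
  have hVp : ∀ x, p x ∈ VV M Ω := fun x => by
    rw [hp]; exact Submodule.starProjection_apply_mem _ x
  have hpM : p ∈ M := by
    rw [VonNeumannAlgebra.IsStarProjection.mem_iff hsp]
    intro y hy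
    rw [Module.End.mem_invtSubmodule]
    rintro _ ⟨x, rfl⟩
    refine ⟨y (p x), hpV _ (inv M Ω y hy _ (hVp x))⟩
  have hΩi : ∀ i, z (Ω i) = Ω i := by
    intro i
    have := congrArg (fun v : HH (Fin k) H => v i) hΩ
    simpa [dg_apply] using this
  refine ⟨p, hpM, ⟨hsp.isSelfAdjoint.star_eq, hsp.isIdempotentElem⟩, ?_, ?_, ?_⟩
  · ext x
    have : ∀ v ∈ VV M Ω, z v = (1 : H →L[ℂ] H) v := by
      apply eq_on
      intro a ha i
      have h1 : z * a = a * z := VonNeumannAlgebra.mem_commutant_iff.1 ha z hz.2.1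
      have h2 := congrArg (fun T : H →L[ℂ] H => T (Ω i)) h1
      simp only [ContinuousLinearMap.mul_apply] at h2
      rw [h2, hΩi i]
      rfl
    simpa using this (p x) (hVp x)
  · ext i
    rw [dg_apply]
    exact hpV _ (om_mem M Ω i)
  · intro a ha haΩ
    have hi : ∀ i, a (Ω i) = 0 := by
      intro i
      have := congrArg (fun v : HH (Fin k) H => v i) haΩ
      simpa [dg_apply] using this
    have h0 : ∀ v ∈ VV M Ω, a v = (0 : H →L[ℂ] H) v := by
      apply eq_on
      intro c hc i
      have h1 : a * c = c * a := VonNeumannAlgebra.mem_commutant_iff.1 hc a ha.1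
      have h2 := congrArg (fun T : H →L[ℂ] H => T (Ω i)) h1
      simp only [ContinuousLinearMap.mul_apply] at h2
      rw [h2, hi i]
      simp
    rw [← ha.2.2]
    ext x
    simpa using h0 (p x) (hVp x)

end H68R2.BP
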